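import Pool.Agent.H95.MM5

set_option autoImplicit false

open Pool.Agent.H95.Mms

theorem Pool.Agent.Results.MP_3020f5_gt.SigConc.result :
    @ContractibleSpace Sig (sigTop conc) :=
  th_conc.sig
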